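import Pool.Agent.Helper81.Sus2.Defs

/-!
# Networks of processors: definitions
-/

namespace Pool.Agent.Helper65.NX

open Pool.Agent.Helper65.LinSpace Pool.Agent.Helper78.Mpc Pool.Agent.Helper28.Ram
open Pool.Agent.Helper81.Sus2 (Decomp)

/-- A uniform family of networks. For every word `p` there is a network; its cells are named by the
words `z` which are as long as `p`, and contain words. At the start all cells are empty. In the step
`t` every cell `z` reads the contents of `deg` cells, which are given by `nb`, and reads the letters
with the numbers `addr` of the input word and of the additional word; then it gets the content `next`.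
All this may depend on the length of the input word, on `t`, `p` and `z`, and the two latter
functions depend also on the contents which are read; see `Net.inp`, `Net.view`, `Net.step`.
The functions are computed in linear space. -/
structure Net where
  deg : ℕ
  nb : List Bool → List Bool
  addr : List Bool → List Bool
  next : List Bool → List Bool
  nb_lin : LinComp nb
  addr_lin : LinComp addr
  next_lin : LinComp next

/-- The header `⟨n⟩ ⟨t⟩ ⟨p⟩ ⟨z⟩`, where `⟨ ⟩` stands for the self-delimiting code and the numbers are
written in binary. -/
def hd (n t : ℕ) (p z : List Bool) : List Bool := sd n.bits ++ (sd t.bits ++ (sd p ++ sd z))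

/-- The name of the `i`-th cell whose content at the time `t` is read by the cell `z` in the step
`t`, which leads from the time `t` to the time `t + 1`: the word `nb (⟨n⟩ ⟨t⟩ ⟨p⟩ ⟨z⟩ i)`, or `z` itself if this
word does not have the right length. -/
def Net.inp (A : Net) (n : ℕ) (p : List Bool) (t : ℕ) (z : List Bool) (i : ℕ) : List Bool :=
  if (A.nb (hd n t p z ++ i.bits)).length = p.length then A.nb (hd n t p z ++ i.bits) else z

/-- What the cell `z` knows in the step `t` after it has read the contents of the first `i` cells, the
contents of the cells being `v`: the word `⟨n⟩ ⟨t⟩ ⟨p⟩ ⟨z⟩ ⟨v₀⟩ … ⟨vᵢ₋₁⟩`. -/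
def Net.view (A : Net) (n : ℕ) (p : List Bool) (t : ℕ) (v : List Bool → List Bool)
    (z : List Bool) : ℕ → List Bool
  | 0 => hd n t p z
  | i + 1 => A.view n p t v z i ++ sd (v (A.inp n p t z i))

/-- The new content of the cell `z` after the step `t`, the contents being `v`, the input word `w` and
the additional word `y`. If the cell knows `u`, it reads the letter number `addr (0 u)` of `w` and the
letter number `addr (1 u)` of `y`. -/
def Net.step (A : Net) (w y p : List Bool) (t : ℕ) (v : List Bool → List Bool) (z : List Bool) :
    List Bool :=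
  let u := A.view w.length p t v z A.deg
  A.next (sd w[bval (A.addr (false :: u))]?.toList ++
    (sd y[bval (A.addr (true :: u))]?.toList ++ u))

/-- The contents of the cells at the time `t`. -/
def Net.val (A : Net) (w y p : List Bool) : ℕ → List Bool → List Bool
  | 0 => fun _ => []
  | t + 1 => A.step w y p t (A.val w y p t)

/-- At the time `r` the content of the cell `p` begins with `1`. -/
def Net.AcceptsAt (A : Net) (w y p : List Bool) (r : ℕ) : Prop :=
  (A.val w y p r p).head? = some true

/-- The cone of depth `k` of the cell `z` at the time `t`: the cells whose contents at the time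
`t - k` are used for the content of `z` at the time `t`. -/
def Net.cone (A : Net) (n : ℕ) (p : List Bool) : ℕ → ℕ → List Bool → Set (List Bool)
  | 0, _, z => {z}
  | k + 1, t, z => {u | ∃ i < A.deg, u ∈ A.cone n p k (t - 1) (A.inp n p (t - 1) z i)}

/-- At the time `t` the network is described by at most `m` bits: there is a word from which the
decompressor `E`, with a memory of `a` bits, computes the content of every cell `z`, if it is given the
header `⟨n⟩ ⟨t⟩ ⟨p⟩ ⟨z⟩`. -/
def Net.Short (A : Net) (E : Decomp) (w y p : List Bool) (a m t : ℕ) : Prop :=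
  ∃ D : List Bool, D.length ≤ m ∧ ∀ z : List Bool, z.length = p.length →
    E.Says w y a D (hd w.length t p z) (A.val w y p t z)

/-- `A` accepts the input word `w` with the additional word `y` in a network `p` of at most `2 ^ a`
cells at a time `r < 2 ^ a`, with the following bounds: contents have at most `s` bits and addresses
at most `a` bits; all cones of depth at most `B` have at most `V` cells, `0 < B ≤ V`; and whenever the
network is not described by at most `c n` bits at any time strictly between `t` and `t' ≤ r`, then
`t' ≤ t + x`. Here `V s l l' ≤ C (n + 1)`, `x l l' ≤ C (n + 1) B` and `(s + a) l ^ 2 ≤ C (n + 1)`, where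
`l = ⌊log₂ n⌋ + 1` and `l' = ⌊log₂ l⌋ + 1`. -/
def Net.Within (A : Net) (E : Decomp) (c : ℕ) (C : ℝ) (w y : List Bool) : Prop :=
  ∃ (p : List Bool) (r s a x B V : ℕ), A.AcceptsAt w y p r ∧ p.length ≤ a ∧ r < 2 ^ a ∧
    0 < B ∧ B ≤ V ∧
    (∀ t ≤ r, ∀ z : List Bool, z.length = p.length → (A.val w y p t z).length ≤ s ∧
      (∀ b, (A.addr (b :: A.view w.length p t (A.val w y p t) z A.deg)).length ≤ a) ∧
      ∀ k ≤ B, k ≤ t → (A.cone w.length p k t z).ncard ≤ V) ∧
    (∀ t t' : ℕ, t ≤ t' → t' ≤ r →
      (∀ u, t < u → u < t' → ¬A.Short E w y p a (c * w.length) u) → t' ≤ t + x) ∧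
    (V : ℝ) * s * ((Nat.log 2 w.length : ℝ) + 1) *
      ((Nat.log 2 (Nat.log 2 w.length + 1) : ℝ) + 1) ≤ C * ((w.length : ℝ) + 1) ∧
    (x : ℝ) * ((Nat.log 2 w.length : ℝ) + 1) *
      ((Nat.log 2 (Nat.log 2 w.length + 1) : ℝ) + 1) ≤ C * ((w.length : ℝ) + 1) * B ∧
    ((s : ℝ) + a) * ((Nat.log 2 w.length : ℝ) + 1) ^ 2 ≤ C * ((w.length : ℝ) + 1)

end Pool.Agent.Helper65.NX
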