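import Pool.Agent.Helper65.NX.Final
import Pool.Agent.Helper65.NX.K36.CLIN
import Pool.Agent.Helper65.NX.K30.CVAL
import Pool.Agent.Helper65.NX.K41.CWTH
import Pool.Agent.Helper65.NX.K35.CCONE
import Pool.Agent.Helper65.NX.K35.CSHORT
import Pool.Agent.Helper65.NX.K82.ALIN
import Pool.Agent.Helper65.NX.K8.AVAL
import Pool.Agent.Helper65.NX.K33.ACONE
import Pool.Agent.Helper65.NX.K88.AWTH

/-!
# Networks of processors, circuits and cellular automata: the theorem
-/

namespace Pool.Agent.Helper65.NX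

open Pool.Agent.Helper65.LinSpace
open Pool.Agent.Helper81.Gen4 (Q)
open Pool.Agent.Helper31.Gen5 (Hard)
open Pool.Agent.Helper81.Sus2 (Decomp)

theorem cwth_all : CWTH_stmt :=
  Pool.Agent.Helper65.NX.K41.cwth Pool.Agent.Helper65.NX.K36.clin Pool.Agent.Helper65.NX.K30.cval
    Pool.Agent.Helper65.NX.K35.ccone (Pool.Agent.Helper65.NX.K35.cshort Pool.Agent.Helper65.NX.K30.cval)

theorem awth_all : AWTH_stmt :=
  Pool.Agent.Helper65.NX.K88.awth Pool.Agent.Helper65.NX.K82.alin Pool.Agent.Helper65.NX.K8.aval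
    Pool.Agent.Helper65.NX.K33.acone

theorem networks (c : ℕ) (hc : 0 < c) :
    (∀ (A : Net) (E : Decomp) (L : Set (List Bool)) (C : ℝ),
      (∀ w, Q (c * w.length) (fun v => ∃ p r, A.AcceptsAt w v p r) → w ∈ L) →
      (∀ w ∈ L, Q (c * w.length) (A.Within E c C w)) → DLINSPACE L) ∧
    ∃ L : Set (List Bool), DLINSPACE L ∧
      (∀ (A : Net) (E : Decomp) (C : ℝ),
        Hard L c (fun w α => Q (c * w.length) fun v => ∃ p r, A.AcceptsAt w (α ++ v) p r)
          (fun w α => Q (c * w.length) fun v => A.Within E c C w (α ++ v))) ∧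
      (∀ (A : Pool.Agent.Helper65.HC.Circ) (E : Decomp) (C : ℝ),
        Hard L c (fun w α => Q (c * w.length) fun v => ∃ r, A.AcceptsAt w (α ++ v) r)
          (fun w α => Q (c * w.length) fun v =>
            Pool.Agent.Helper65.HCS.Within A E c C w (α ++ v))) ∧
      ∀ (D : ℕ) [NeZero D] (A : CA D) (C : ℝ),
        Hard L c (fun w α => Q (c * w.length) fun v => ∃ t, A.config w (α ++ v) t 0 ∈ A.accept)
          (fun w α => Q (c * w.length) fun v => ∃ t : ℕ,
            (t : ℝ) ≤ C * ((w.length : ℝ) + 1) ^ (1 + 1 / (D : ℝ)) /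
              ((Nat.log 2 w.length : ℝ) + 1) ^ 3 ∧ A.config w (α ++ v) t 0 ∈ A.accept) :=
  networks_of cwth_all awth_all c hc

end Pool.Agent.Helper65.NX
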