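import Pool.Agent.Helper65.NX.Final2
import Pool.Agent.Helper92.KR.Hub

/-!
# Networks of processors: the theorem with and without guessed letters
-/

namespace Pool.Agent.Helper65.NX

open Pool.Agent.Helper65.LinSpace Pool.Agent.Helper78.Mpc Pool.Agent.Helper28.Ram
open Pool.Agent.Helper81.Gen4 (Q Q_mono q_lin)
open Pool.Agent.Helper31.Gen5 (Hard q_hard)
open Pool.Agent.Helper81.Sus2 (Decomp)
open Pool.Agent.Helper31.MHS (q_take)
open Pool.Agent.Helper92.KR (par Coded)

theorem networks3 (c : ℕ) (hc : 0 < c) :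
    (∀ (A : Net) (E : Decomp) (L : Set (List Bool)) (C : ℝ),
      (∀ w, Q (c * w.length) (fun v => ∃ p r, A.AcceptsAt w v p r) → w ∈ L) →
      (∀ w ∈ L, Q (c * w.length) (A.Within E c C w)) → DLINSPACE L) ∧
    ∃ L : Set (List Bool), DLINSPACE L ∧
      (∀ (A : Net) (E : Decomp) (C : ℝ),
        Hard L c (fun w α => ∃ p r, A.AcceptsAt w α p r) (fun w α => A.Within E c C w α) ∧
        Hard L c (fun w α => Q (c * w.length) fun v => ∃ p r, A.AcceptsAt w (α ++ v) p r)
          (fun w α => Q (c * w.length) fun v => A.Within E c C w (α ++ v))) ∧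
      (∀ (A : Pool.Agent.Helper65.HC.Circ) (E : Decomp) (C : ℝ),
        Hard L c (fun w α => ∃ r, A.AcceptsAt w α r)
          (fun w α => Pool.Agent.Helper65.HCS.Within A E c C w α) ∧
        Hard L c (fun w α => Q (c * w.length) fun v => ∃ r, A.AcceptsAt w (α ++ v) r)
          (fun w α => Q (c * w.length) fun v =>
            Pool.Agent.Helper65.HCS.Within A E c C w (α ++ v))) ∧
      ∀ (D : ℕ) [NeZero D] (A : CA D) (C : ℝ),
        Hard L c (fun w α => ∃ t, A.config w α t 0 ∈ A.accept)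
          (fun w α => ∃ t : ℕ, (t : ℝ) ≤ C * ((w.length : ℝ) + 1) ^ (1 + 1 / (D : ℝ)) /
              ((Nat.log 2 w.length : ℝ) + 1) ^ 3 ∧ A.config w α t 0 ∈ A.accept) ∧
        Hard L c (fun w α => Q (c * w.length) fun v => ∃ t, A.config w (α ++ v) t 0 ∈ A.accept)
          (fun w α => Q (c * w.length) fun v => ∃ t : ℕ,
            (t : ℝ) ≤ C * ((w.length : ℝ) + 1) ^ (1 + 1 / (D : ℝ)) /
              ((Nat.log 2 w.length : ℝ) + 1) ^ 3 ∧ A.config w (α ++ v) t 0 ∈ A.accept) := by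
  have hgood : ∀ (A : Net) (E : Decomp) (C : ℝ), _ := fun A E C => fin_all c A E C
  have hls := lsk_all c
  refine ⟨fun A E L C h1 h2 => q_lin (accF c) NF hls.1 hls.2 c L
    (fun w y => ∃ p r, A.AcceptsAt w y p r) (A.Within E c C) (hgood A E C) h1 h2, ?_⟩
  obtain ⟨L, h1, h2⟩ := q_hard (par (accF c) c) NF (Pool.Agent.Helper92.KR.LS.par hls.1 c) hls.2
    c c hc
  have h3 : ∀ (A : Net) (E : Decomp) (C : ℝ),
      Hard L c (fun w α => ∃ p r, A.AcceptsAt w α p r) (fun w α => A.Within E c C w α) ∧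
      Hard L c (fun w α => Q (c * w.length) fun v => ∃ p r, A.AcceptsAt w (α ++ v) p r)
        (fun w α => Q (c * w.length) fun v => A.Within E c C w (α ++ v)) := fun A E C => by
    have h4 : Coded (accF c) NF (fun w y => ∃ p r, A.AcceptsAt w y p r) (A.Within E c C) :=
      hgood A E C
    exact ⟨(h2 _ _ (h4.odd c)).mono
      (fun w α h => (q_take c w α fun y => ∃ p r, A.AcceptsAt w y p r).1 h)
      (fun w α h => (q_take c w α fun y => A.Within E c C w y).2 h), h2 _ _ (h4.even c)⟩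
  refine ⟨L, h1, h3, fun A E C => ?_, fun D _ A C => ?_⟩
  · obtain ⟨N, hN, h4⟩ := cwth_all A
    obtain ⟨E', h5⟩ := h4 E
    obtain ⟨C', h6⟩ := h5 c C
    exact ⟨(h3 N E' C').1.mono (fun w α h => hN w _ h) (fun w α h => h6 w _ h),
      (h3 N E' C').2.mono (fun w α => Q_mono fun x u y _ _ _ h => hN w _ h)
        (fun w α => Q_mono fun x u y _ _ _ h => h6 w _ h)⟩
  · obtain ⟨N, hN, h4⟩ := awth_all D A
    obtain ⟨C', h5⟩ := h4 C
    exact ⟨(h3 N triv C').1.mono (fun w α h => hN w _ h) (fun w α h => h5 triv c w _ h),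
      (h3 N triv C').2.mono (fun w α => Q_mono fun x u y _ _ _ h => hN w _ h)
        (fun w α => Q_mono fun x u y _ _ _ h => h5 triv c w _ h)⟩

end Pool.Agent.Helper65.NX
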