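import Pool.Agent.Helper65.NX.Num
import Pool.Agent.Helper31.Gen5.Hard

/-!
# Networks of processors: the statements of the parts

Every statement comes with its proof in words. Project NW is an analogue of the projects HC, HCS
(`Pool/Agent/Helper65/HC`, `HCS`); most parts can be adapted from the proofs there.
-/

namespace Pool.Agent.Helper65.NX

open Pool.Agent.Helper65.LinSpace Pool.Agent.Helper78.Mpc Pool.Agent.Helper28.Ram Finset Filter
open Pool.Agent.Helper81.Sus2 (Decomp CodE)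

/-- TREE. The simulation is right. `G` is a set of names which is closed under `inp`.

Facts. (a) The cone: `mem t 0 z u = eq01 z u` (`dg ^ 0 = 1`, `walk t z 0 0 = z`), so `cnt t 0 z z = 0`,
`sel t 0 z 0 = z` for `z < Wd`, `cnt t 0 z Wd = 1`. If `mem t k z u ≠ 0` and `l < dg` then
`mem t (k + 1) z (inp (t - 1 - k) u l) ≠ 0`: if `π < dg ^ k` leads to `u` then `π + dg ^ k * l < dg ^ (k + 1)`
leads to the new cell (the digits `i < k` of both are the same, `dig_add_pow` in `Helper31/DLS/Sim.lean`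
or `Nat.add_mul_div_left`, `walk` depends only on the digits `i < j`). (b) `cnt` is monotone, and if
`mem t k z u = 1`, `u < Wd`, then `cnt t k z u < cnt t k z Wd`, and `sel t k z (cnt t k z u) = u`, since no other
`v` with `mem … v = 1` has the same `cnt` (for `u < v`, `cnt v ≥ cnt (u + 1) = cnt u + 1`). (c) if
`i < cnt t k z Wd` then there is `u < Wd` with `mem t k z u = 1`, `cnt t k z u = i` (discrete continuity), so
`mem t k z (sel t k z i) = 1`. All values `gval …` are smaller than `2 ^ σ` (`gval_lt`; `small ≤ 1`, `dig_lt`).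

(1) By induction on `h`, for all `t`, `z < Wd`: if `gval V σ nF leaf ch h (t * Wd + z) ≠ 0` then it is `cont t z`.
`(t * Wd + z) / Wd = t`, `% Wd = z`. `h = 0`: `leaf ≠ 0` forces `t = 0`. Step: let `k = min B t`, `a` the table of the
values of the children, `t - B = t - k`. As the value is not `0`, `small t z = 1`, so for all `j ≤ k`,
`cnt t j z Wd ≤ V`. Claim for `e ≤ k`: for every `u` with `mem t (k - e) z u = 1` (so `u < Wd`, by (a): `z` or a
value of `inp`), the digit `cnt t (k - e) z u` of `tbl t z a e` is `0` or `cont (t - (k - e)) u`. `e = 0`: the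
digit `i` of `a`, `i < V`, is the value of the child `(t - k, sel t k z i)`, by the induction hypothesis.
`e → e + 1`: the digit `i = cnt … u` of the new table is `upd (t - (k - e)) u (tab … fun l => …)` where the
entries are digits of the old table for the cells `inp (t - (k - e)) u l`, which are in the cone of depth
`k - e` by (a); if one is `0` then `hzero` gives `0`, otherwise all are right and the result is
`cont (t - (k - e) + 1) u` by definition, `t - (k - e) + 1 = t - (k - (e + 1))`. For `e = k`: the digit `0` for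
the only cell `z`. (2) The same with equalities, for `t ≤ h * B` and `G z`; `small = 1` by hypothesis;
the children are at the time `t - k ≤ (h - 1) * B`, and `G (sel t k z i)` for the members (other children
do not matter). -/
def TREE_stmt : Prop := ∀ m : Mach, m.Ok →
  (∀ t z, z < m.Wd → m.sim t z ≠ 0 → m.sim t z = m.cont t z) ∧
  ∀ G : ℕ → Prop, (∀ z, G z → z < m.Wd) → (∀ t z i, G z → i < m.dg → G (m.inp t z i)) →
    ∀ t, t ≤ m.K * m.B → (∀ t' ≤ t, ∀ z, G z → ∀ k ≤ m.B, k ≤ t' → m.cnt t' k z m.Wd ≤ m.V) →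
      ∀ z, G z → m.sim t z = m.cont t z

/-- LSV. The simulation is computed in linear space. `LS.gval` (`Mpc/GTree.lean`) with `p = pR n`
(`n = log₂ x`), `D = V`, `L = σ`, `h = K`, `G = Wd * Wd`, `C = CT x`, as in the packet LSV of HC
(`Pool.Agent.Helper83.HC.lsv`). Bounds: `p ≤ 2 ^ (9 ll n)`, `ll n * qT n ≤ 2 (n + 1)`, `(V + 1) σ ≤ 2 qT n`, so
`p ^ ((V + 1) σ) ≤ 2 ^ (36 (n + 1))`; `MM p V = (p - 1) (2 V + 3) ≤ 2 ^ (15 ll n)` (if `σ = 0` replace the bound on `V`:
`V ≤ qT n` is given), so `MM p V ^ K ≤ 2 ^ (30 (n + 1))`; `V σ < p - 1`; `two_pow_log_le`. `ch u i ≤ u + G`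
since `sel ≤ Wd * Wd`. `nF u a < 2 ^ σ`: `small ≤ 1`, `dig_lt`. For `mem t k z u` with `k` replaced by `min k B`
(only `k ≤ B` is used in `nF` and `ch`): `dg ^ min k B ≤ C + 1`; `LS.sum_le`; `walk` by `LS.nrec` with the
bound `z + Wd`. `tbl` by `LS.nrec` with the bound `C + a` (tables are smaller than `(2 ^ σ) ^ V`),
`LS.tab` twice (`hC1`, `hC3`). -/
def LSV_stmt : Prop := ∀ {α : Type} [Ctx α] {m : α → Mach} {x t i : α → ℕ}, LS x → LS t → LS i →
    LSM m (fun z => RT.CT (x z)) →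
    (∀ z, (m z).V * (m z).σ ≤ RT.qT (Nat.log 2 (x z)) ∧ (m z).V ≤ RT.qT (Nat.log 2 (x z)) ∧
      (m z).σ ≤ RT.qT (Nat.log 2 (x z)) ∧ (m z).K ≤ RT.qT (Nat.log 2 (x z))) →
    LS (fun z => (m z).sim (t z) (i z))

/-- INP. The inputs of a cell. The code comes from `fnN_spec`. The argument of `nb` is a word of
length at most `(2 k + 1) + (2 k + 1) + (2 Z + 1) + (2 Z + 1) + k ≤ 9 k + 4` (`length_bits`, `length_sd`).
`hdN = num (hd …)` (`bitsN_eq`, `sdN_num`, `catN_num`, `log_num`). `nbN = num (nb …)` if `|nb …| ≤ Z`, and `0`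
otherwise; `log₂ (num u) = |u|`, `num u < 2 ^ (|u| + 1)`. -/
def INP_stmt : Prop := ∀ A : Net, ∃ eN c : ℕ, ∀ (w p z : List Bool) (P : Prm) (k t i : ℕ),
    P.eN = eN → P.x = num w → z.length = p.length → p.length ≤ P.Z → P.Z ≤ k → w.length < 2 ^ k →
    t < 2 ^ k → i < 2 ^ k → c * (10 * k + 20) ≤ P.Λ → c + P.Λ + 10 * k + 20 ≤ P.β →
    2 ^ (P.Z + 1) ≤ P.M → P.inpN (num p) t (num z) i = num (A.inp w.length p t z i)

/-- STEP. One step of a cell. The codes come from `fnN_spec`. `viewN … i = num (view … i)` by induction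
on `i ≤ deg`; the view has at most `8 k + 4 + deg (2 S + 1)` letters. `adrN u = num (addr u)` if
`|addr u| ≤ Z`, and `0` otherwise; `bvalN (num u) = bval u`; `ltN (num v) j = num v[j]?.toList`
(`letN (num v) j = codeO v[j]?`, `num [b] = b.toNat + 2`). -/
def STEP_stmt : Prop := ∀ A : Net, ∃ eA eX c : ℕ, ∀ (w y p z : List Bool) (P : Prm) (k t X : ℕ)
    (v : List Bool → List Bool), P.eA = eA → P.eX = eX → P.dg = A.deg → P.x = num w →
    P.y = num y → z.length = p.length → p.length ≤ P.Z → P.Z ≤ k → w.length < 2 ^ k → t < 2 ^ k →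
    (∀ i < A.deg, dig (2 ^ (P.S + 1)) X i = num (v (A.inp w.length p t z i))) →
    (∀ i < A.deg, (v (A.inp w.length p t z i)).length ≤ P.S) →
    c * ((2 * A.deg + 2) * (P.S + 1) + 10 * k + 20) ≤ P.Λ →
    c + P.Λ + ((2 * A.deg + 2) * (P.S + 1) + 10 * k + 20) ≤ P.β →
    2 ^ (P.S + 1) ≤ P.M → 2 ^ (P.Z + 1) ≤ P.M →
    P.nxtN (P.viewN (num p) t (num z) X P.dg) =
      if (∀ b, (A.addr (b :: A.view w.length p t v z A.deg)).length ≤ P.Z) ∧
        (A.step w y p t v z).length ≤ P.S then num (A.step w y p t v z) else 0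

/-- Contents have at most `s` bits, and addresses at most `a` bits, up to the time `r`. -/
def Fit (A : Net) (w y p : List Bool) (r s a : ℕ) : Prop :=
  ∀ t ≤ r, ∀ z : List Bool, z.length = p.length → (A.val w y p t z).length ≤ s ∧
    ∀ b, (A.addr (b :: A.view w.length p t (A.val w y p t) z A.deg)).length ≤ a

/-- Cones of depth at most `B` have at most `V` cells, up to the time `r`. -/
def Cns (A : Net) (n : ℕ) (p : List Bool) (r B V : ℕ) : Prop :=
  ∀ t ≤ r, ∀ z : List Bool, z.length = p.length → ∀ k ≤ B, k ≤ t → (A.cone n p k t z).ncard ≤ V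

/-- The configuration with the number `c` describes the network `p` at the time `t`. -/
structure Rep (A : Net) (w y p : List Bool) (P : Prm) (c t : ℕ) : Prop where
  ne : c ≠ 0
  ct : P.ct c = t
  len : ∀ z : List Bool, z.length = p.length → (A.val w y p t z).length ≤ P.S
  pre : ∀ z : List Bool, z.length = p.length → P.pre (num p) c (num z) = num (A.val w y p t z)

/-- The windows on numbers are right up to the time `R`. -/
structure Right (A : Net) (w y p : List Bool) (P : Prm) (R : ℕ) : Prop where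
  ok : ∀ q c, (P.win q c).Ok
  v1 : ∀ c t, Rep A w y p P c t → ∀ τ, t + τ ≤ R → ∀ z : List Bool, z.length = p.length →
    (P.win (num p) c).cont τ (num z) ≠ 0 →
    (P.win (num p) c).cont τ (num z) = num (A.val w y p (t + τ) z) ∧
      (A.val w y p (t + τ) z).length ≤ P.S
  v2 : ∀ c t, Rep A w y p P c t → ∀ r ≤ R, Fit A w y p r P.S P.Z → ∀ τ, t + τ ≤ r →
    ∀ z : List Bool, z.length = p.length →
    (P.win (num p) c).cont τ (num z) = num (A.val w y p (t + τ) z)
  cn : ∀ c t, Rep A w y p P c t → ∀ τ, t + τ ≤ R → ∀ z : List Bool, z.length = p.length →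
    ∀ k ≤ τ, (P.win (num p) c).cnt τ k (num z) (Prm.wd (num p)) =
      (A.cone w.length p k (t + τ) z).ncard

/-- WIN (may assume INP, STEP). `c` is the sum of the two constants. `R < 2 ^ k`, so all times are smaller
than `2 ^ k`; `deg ≤ 2 ^ k` (for the numbers `i < deg` of inputs).
(ok) `wd q > 0`; `inpN` is a remainder modulo `wd q`; `capN_lt`; `1 < 2 ^ (S + 1)`; if the digit `i < dg` of
`X` is `0` then `viewN … dg = 0` (`sdN 0 = 0`, `catN u 0 = 0`, `catN 0 v = 0`), `fnN … 0 = 0`, `capN S 0 = 0`.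
(v1) Induction on `τ`, for all `z`. `τ = 0`: `Rep.pre`, `Rep.len`. Step: `cont (τ + 1) (num z) = upd … (tab …)`;
as it is not `0`, by `ok.hzero` and `dig_tab` (the entries are smaller than `2 ^ (S + 1)` by `ok`) all
entries `cont τ (inpN … i) = cont τ (num (inp …))` (INP; the word `inp …` has the length of `p`) are not `0`,
so they are right with lengths `≤ S`; STEP gives the claim (the result is not `0`, so both
conditions hold). (v2) the same, all conditions hold by `Fit`. (cn) The cone is the set of the words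
`u` reached by walks: by induction on `k`, `u ∈ cone n p k (t + τ) z` iff there is `π < deg ^ k` with
`walk τ (num z) π k = num u` (the first step of the walk is the first step of the cone: the digit `0` of
`π`, and the rest is `π / deg` with the time `τ - 1`; `t + τ - 1 - i = ct c + (τ - 1 - i)` for `i < k ≤ τ`).
All names which are reached are `num u` with `|u| = |p|`, so they are smaller than `wd (num p)`, and `cnt` is
the number of elements of the image of the cone under the injective function `num`. -/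
def WIN_stmt : Prop := ∀ A : Net, ∃ eN eA eX c : ℕ, ∀ (w y p : List Bool) (P : Prm) (k R : ℕ),
    P.eN = eN → P.eA = eA → P.eX = eX → P.dg = A.deg → P.x = num w → P.y = num y →
    p.length ≤ P.Z → P.Z ≤ k → w.length < 2 ^ k → R < 2 ^ k → A.deg ≤ 2 ^ k →
    c * ((2 * A.deg + 2) * (P.S + 1) + 10 * k + 20) ≤ P.Λ →
    c + P.Λ + ((2 * A.deg + 2) * (P.S + 1) + 10 * k + 20) ≤ P.β →
    2 ^ (P.S + 1) ≤ P.M → 2 ^ (P.Z + 1) ≤ P.M → Right A w y p P R

/-- CODE. The codes of a decompressor, as `Pool.Agent.Helper12.HCS.code`. -/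
def CODE_stmt : Prop := ∀ E : Decomp, ∃ eD eE c : ℕ, ∀ P : Prm, P.eD = eD → P.eE = eE →
    c * (8 * P.Z + 8) ≤ P.Λ → c + P.Λ + 8 * P.Z + 8 ≤ P.β → 2 ^ (P.Z + 2) ≤ P.M → CodE E P.dc

/-- CHK (may assume TREE). The checks, if the windows are right (compare
`Pool.Agent.Helper93.HCS.chk`). `log₂ (num p) = |p|`, and the numbers `2 ^ |p| + i`, `i < 2 ^ |p|`, are the numbers
`num z` of the words `z` of length `|p|`; the set `G` of these numbers is closed under `inp` (in `inpN`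
either the result is `z`, or it has the logarithm `|p|` and is not `0`).
(1) If `chk (num p) c τ d ≠ 0` then all factors are `1`: `c ≠ 0`, `d ≠ 0`, `0 < τ`, `ct d = ct c + τ = t + τ`, so
`t + τ < 2 ^ Z ≤ R + 1`, and no name is bad. So `sim τ (num z)` is not `0`, by TREE (1) it is `cont τ (num z)`,
by `Right.v1` it is `num (val (t + τ) z)`, of length `≤ S`, and it is `say (num p) d (num z)`; as `ct d > 0`,
`pre (num p) d (num z)` is this number (`capN_num`). (2) `ac ≠ 0` gives `t + τ = r` and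
`accN (sim τ (num p)) ≠ 0`, so `sim τ (num p) ≠ 0` (`accN 0 = 0`), and it is right by TREE (1), `Right.v1`;
`accN_num`. (3) By `Right.cn` and `Cns`, TREE (2) applies for `τ ≤ N = K * B`, `t + τ ≤ r`, so by `Right.v2`
`sim τ (num z) = num (val (t + τ) z)`. The first part is clear. The second part: `D` describes the network at
the time `u`, `d = 1 + u + 2 ^ Z * num D`; `u ≤ r < 2 ^ Z`, `num D < 2 ^ (z + 1)`, so `d < cz`, `ct d = u`,
`cD d = num D`, `say (num p) d (num z) = lk (num D) (num (hd n u p z))` (`bitsN_eq`, `sdN_num`, `catN_num`),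
which is `num (val u z)` by the hypothesis; `num _ ≠ 0`. -/
def CHK_stmt : Prop := ∀ (A : Net) (w y p : List Bool) (P : Prm) (R : ℕ), Right A w y p P R →
    P.x = num w → P.y = num y → 2 ^ P.Z ≤ R + 1 →
    (∀ c t τ d, Rep A w y p P c t → τ < P.N → P.chk (num p) c τ d ≠ 0 →
      Rep A w y p P d (t + τ) ∧ 0 < τ) ∧
    (∀ r ≤ R, ∀ c t τ, Rep A w y p P c t → τ < P.N → P.ac (num p) r c τ ≠ 0 →
      A.AcceptsAt w y p r) ∧
    ∀ r < 2 ^ P.Z, Fit A w y p r P.S P.Z → Cns A w.length p r P.B P.V →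
      ∀ c t, Rep A w y p P c t →
      (A.AcceptsAt w y p r → ∀ τ, t + τ = r → τ < P.N → P.ac (num p) r c τ ≠ 0) ∧
      ∀ (E : Decomp) (u : ℕ),
        (∀ D i v : List Bool, E.Says w y P.Z D i v → P.dc.lk (num D) (num i) = num v) →
        t < u → u ≤ r → u < t + P.N → A.Short E w y p P.Z P.z u →
        ∃ d < P.cz, P.chk (num p) c (u - t) d ≠ 0

/-- LSP. The basic functions are computed in linear space (compare `Pool.Agent.Helper14.HCS.lsp`).
`S ≤ q - 1` with `q = qT n ≥ 1`, `S, Z ≤ ZL n ≤ n`, `2 ^ Z ≤ 2 ^ n`, `2 ^ (z + 1) ≤ 2 * 2 ^ (c₀ n)`; `dg ≤ ll (ll n)`,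
`dg (2 S + 3) ≤ 5 (LW n + ll (ll n)) ≤ 10 (n + 1)` since `S ≤ LW n / ll (ll n)`. `viewN` by `LS.nrec`: the value after
`i ≤ dg` steps is at most `(hdN + 1) * 2 ^ ((2 S + 3) i)` (`catN a b ≤ a * b` if both are positive,
`sdN v ≤ 4 v ^ 2` or `sdN v < 2 ^ (2 log v + 2)`). `LS.fnN` as in `Pool.Agent.Helper14.HCS.lsp`. -/
def LSP_stmt : Prop := ∀ (c₀ : ℕ) {α : Type} [Ctx α] {e x y T : α → ℕ}, LS e → LS x → LS y → LS T →
    (∀ {p t z i : α → ℕ}, LS p → LS t → LS z → LS i →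
      LS (fun a => (prm c₀ (e a) (x a) (y a) (T a)).inpN (p a) (t a) (z a) (i a))) ∧
    (∀ {p t z X : α → ℕ}, LS p → LS t → LS z → LS X →
      LS (fun a => (prm c₀ (e a) (x a) (y a) (T a)).viewN (p a) (t a) (z a) (X a)
        (prm c₀ (e a) (x a) (y a) (T a)).dg)) ∧
    (∀ {u : α → ℕ}, LS u → LS (fun a => (prm c₀ (e a) (x a) (y a) (T a)).nxtN (u a))) ∧
    (∀ {c : α → ℕ}, LS c → LS (fun a => (prm c₀ (e a) (x a) (y a) (T a)).ct (c a)) ∧
      LS (fun a => (prm c₀ (e a) (x a) (y a) (T a)).cD (c a))) ∧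
    (∀ {p c z : α → ℕ}, LS p → LS c → LS z →
      LS (fun a => (prm c₀ (e a) (x a) (y a) (T a)).say (p a) (c a) (z a)) ∧
      LS (fun a => (prm c₀ (e a) (x a) (y a) (T a)).pre (p a) (c a) (z a))) ∧
    (∀ {p : α → ℕ}, LS p → LS (fun a => Prm.wd (p a))) ∧
    LS (fun a => (prm c₀ (e a) (x a) (y a) (T a)).S) ∧
    LS (fun a => (prm c₀ (e a) (x a) (y a) (T a)).V) ∧
    LS (fun a => (prm c₀ (e a) (x a) (y a) (T a)).B) ∧
    LS (fun a => (prm c₀ (e a) (x a) (y a) (T a)).K) ∧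
    LS (fun a => (prm c₀ (e a) (x a) (y a) (T a)).dg) ∧
    LS (fun a => 2 ^ (prm c₀ (e a) (x a) (y a) (T a)).Z) ∧
    LS (fun a => (prm c₀ (e a) (x a) (y a) (T a)).cz)

/-- LSW (may assume LSP). The windows form a family computed in linear space (compare
`Pool.Agent.Helper15.HCS.lsw`). `V (S + 1) ≤ q` since `V ≤ q / (S + 1)`; `B ≤ V ≤ q`; `dg ^ B ≤ (ll (ll n)) ^ q
≤ 2 ^ (ll n * q) ≤ 2 ^ (2 (n + 1))`; `(S + 1) dg ≤ LW n + ll (ll n) ≤ 2 (n + 1)`; `two_pow_log_le`. `Ok` as in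
the part (ok) of WIN. -/
def LSW_stmt : Prop := ∀ (c₀ : ℕ) {α : Type} [Ctx α] {e x y T p c : α → ℕ}, LS e → LS x → LS y →
    LS T → LS p → LS c →
    LSM (fun z => (prm c₀ (e z) (x z) (y z) (T z)).win (p z) (c z)) (fun z => RT.CT (x z)) ∧
    ∀ z, ((prm c₀ (e z) (x z) (y z) (T z)).win (p z) (c z)).V *
        ((prm c₀ (e z) (x z) (y z) (T z)).win (p z) (c z)).σ ≤ RT.qT (Nat.log 2 (x z)) ∧
      ((prm c₀ (e z) (x z) (y z) (T z)).win (p z) (c z)).V ≤ RT.qT (Nat.log 2 (x z)) ∧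
      ((prm c₀ (e z) (x z) (y z) (T z)).win (p z) (c z)).σ ≤ RT.qT (Nat.log 2 (x z)) ∧
      ((prm c₀ (e z) (x z) (y z) (T z)).win (p z) (c z)).K ≤ RT.qT (Nat.log 2 (x z))

/-- LSK (may assume LSP, LSW, LSV), compare `Pool.Agent.Helper83.HCS.lsk`. `bad`, `chk` by `LS.sum_le`
(terms at most `1`), `Pool.Agent.Helper31.SusD.LS.itr` for the sequence, `accF` by `LS.sum_le`; the number
of terms of the first sum is `2 * 2 ^ Z`. -/
def LSK_stmt : Prop := ∀ c₀ : ℕ,
    LS (fun z : ℕ × ℕ × ℕ × ℕ => accF c₀ z.1 z.2.1 z.2.2.1 z.2.2.2) ∧ LS NF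

/-- PAR. With `l = ll n`, `l' = ll l`, `q = qT n = n / l + 1`: `n + 1 ≤ q * l`, and `l'` tends to infinity.
(1) For large `n`: `V (s + 1) ≤ 2 V s ≤ 2 C (n + 1) / (l l') ≤ (n + 1) / l ≤ q`; `x ≤ C (n + 1) B / (l l') < B (n + 1) / l
≤ q B`; `1 ≤ V`, so `s + 1 ≤ q`; `s, a ≤ ZL n` from `(s + a) l ^ 2 ≤ C (n + 1)` by `Long.le_ZL`, as in
`Pool.Agent.Helper35.HCS.par`; `V ≤ q ≤ n + 1`. (2) As in `Pool.Agent.Helper35.HCS.par`: `S, Z ≤ ZL n =
LW n / ll (ll n)`, `ll (ll n)` tends to infinity, and `ll n` is small compared with `LW n = n / ll n`. -/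
def PAR_stmt : Prop :=
  (∀ C : ℝ, ∀ᶠ n : ℕ in atTop, ∀ x s a V B : ℕ, 1 ≤ s → 0 < B → B ≤ V →
    (V : ℝ) * s * ((Nat.log 2 n : ℝ) + 1) * ((Nat.log 2 (Nat.log 2 n + 1) : ℝ) + 1) ≤
      C * ((n : ℝ) + 1) →
    (x : ℝ) * ((Nat.log 2 n : ℝ) + 1) * ((Nat.log 2 (Nat.log 2 n + 1) : ℝ) + 1) ≤
      C * ((n : ℝ) + 1) * B →
    ((s : ℝ) + a) * ((Nat.log 2 n : ℝ) + 1) ^ 2 ≤ C * ((n : ℝ) + 1) →
    s ≤ RT.qT n - 1 ∧ s ≤ Pool.Agent.Helper28.Long.ZL n ∧ a ≤ Pool.Agent.Helper28.Long.ZL n ∧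
      s < n + 2 ∧ a < n + 2 ∧ V < n + 2 ∧ B < n + 2 ∧ V ≤ RT.qT n / (s + 1) ∧
      x < RT.qT n * B) ∧
  ∀ c g : ℕ, ∀ᶠ n : ℕ in atTop, ∀ S ≤ Pool.Agent.Helper28.Long.ZL n,
    ∀ Z ≤ Pool.Agent.Helper28.Long.ZL n,
    g ≤ ll (ll n) ∧
    c * ((2 * g + 2) * (S + 1) + 10 * (Z + ll n) + 20) ≤ LW n ∧
    c + LW n + ((2 * g + 2) * (S + 1) + 10 * (Z + ll n) + 20) ≤ 2 ^ (2 * ll n) ∧
    c * (8 * Z + 8) ≤ LW n ∧ c + LW n + 8 * Z + 8 ≤ 2 ^ (2 * ll n) ∧
    (∀ x : ℕ, Nat.log 2 x = n → 2 ^ (S + 1) ≤ CR x ∧ 2 ^ (Z + 2) ≤ CR x)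

/-- FIN (may assume WIN, CODE, CHK, PAR; DEC is proved in `Helper81/Sus2/DEC.lean`). As
`Pool.Agent.Helper94.HCS.exists_good`, with the code
`e = Nat.pair deg (Nat.pair (Nat.pair eN eA) (Nat.pair eX (Nat.pair eD eE)))`, `P = prm c e (num w) (num y) T`,
`k = Z + ll n`, `R = 2 ^ Z - 1`; `deg ≤ ll (ll n) ≤ 2 ^ k`, so `P.dg = deg`. `Rep … 1 0` holds by definition.
(a) If `accF ≠ 0` then for some `q < 2 ^ (Z + 1)`, `q ≠ 0`, so `q = num p` for a word `p` of length at most
`Z`, and some `r < 2 ^ Z`, `j`, `τ < N` the number `ac q r (itr … j) τ` is not `0`; `itr_sound` with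
`R = Rep A w y p P`, then (2) of CHK. (b) If `A.Within E c C w y` with `p`, `r`, `s`, `a`, `x`, `B`, `V` (`1 ≤ s` since
the content of `p` is not empty) then `T = s + (n + 2) (a + (n + 2) (V + (n + 2) B)) < NF x` works:
`sT n T = s`, `aT n T = a`, `vT n T = V`, `bT n T = B`, and `x < N`. `itr_complete` as there. -/
def FIN_stmt : Prop := ∀ (c : ℕ) (A : Net) (E : Decomp) (C : ℝ), ∃ e n₀ : ℕ,
    ∀ w y : List Bool, n₀ ≤ w.length →
      (∀ T < NF (num w), accF c e (num w) (num y) T ≠ 0 → ∃ p r, A.AcceptsAt w y p r) ∧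
      (A.Within E c C w y → ∃ T < NF (num w), accF c e (num w) (num y) T ≠ 0)

end Pool.Agent.Helper65.NX
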