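import Pool.Agent.Helper65.NX.Goals2
import Pool.Agent.Helper92.RE.Loc

/-!
# Networks of processors: time alone, and words which are given by a local map

Every statement comes with its proof in words. `NX` is the same as `NW`, but a cell reads the letter
number `addr (0 u)` of `w` and the letter number `addr (1 u)` of `y`.
-/

namespace Pool.Agent.Helper65.NX

open Pool.Agent.Helper65.LinSpace Pool.Agent.Helper78.Mpc Pool.Agent.Helper28.Ram Finset
open Pool.Agent.Helper65.HC
open Pool.Agent.Helper92.RE (Loc)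
open Pool.Agent.Helper81.Sus2 (Decomp)

/-- The condition `Within` without descriptions: `x` is the time `r`. -/
def Net.Plain (A : Net) (C : ℝ) (w y : List Bool) : Prop :=
  ∃ (p : List Bool) (r s a B V : ℕ), A.AcceptsAt w y p r ∧ p.length ≤ a ∧ r < 2 ^ a ∧
    0 < B ∧ B ≤ V ∧
    (∀ t ≤ r, ∀ z : List Bool, z.length = p.length → (A.val w y p t z).length ≤ s ∧
      (∀ b, (A.addr (b :: A.view w.length p t (A.val w y p t) z A.deg)).length ≤ a) ∧
      ∀ k ≤ B, k ≤ t → (A.cone w.length p k t z).ncard ≤ V) ∧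
    (V : ℝ) * s * ((Nat.log 2 w.length : ℝ) + 1) *
      ((Nat.log 2 (Nat.log 2 w.length + 1) : ℝ) + 1) ≤ C * ((w.length : ℝ) + 1) ∧
    (r : ℝ) * ((Nat.log 2 w.length : ℝ) + 1) *
      ((Nat.log 2 (Nat.log 2 w.length + 1) : ℝ) + 1) ≤ C * ((w.length : ℝ) + 1) * B ∧
    ((s : ℝ) + a) * ((Nat.log 2 w.length : ℝ) + 1) ^ 2 ≤ C * ((w.length : ℝ) + 1)

theorem Net.Plain.within {A : Net} {C : ℝ} {w y : List Bool} (h : A.Plain C w y) (E : Decomp)
    (c : ℕ) : A.Within E c C w y := by
  obtain ⟨p, r, s, a, B, V, h1, h2, h3, h4, h5, h6, h7, h8, h9⟩ := h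
  exact ⟨p, r, s, a, r, B, V, h1, h2, h3, h4, h5, h6, fun t t' _ h _ => by omega, h7, h8, h9⟩

/-- CPL. The bounds for the network of a circuit with `r` gates: as in `CWTH_stmt` (the proof is
`Pool.Agent.Helper65.NX.K41.cwth`), without the part on intervals, the time is `2 r + 2`. Soundness is
contained in CVAL. -/
def CPL_stmt : Prop := ∀ (A : Circ) (N : Net), IsCirc A N →
    (∀ w y : List Bool, (∃ p r, N.AcceptsAt w y p r) → ∃ r, A.AcceptsAt w y r) ∧
    ∀ C : ℝ, ∃ C' : ℝ, ∀ w y : List Bool, A.Within C w y → N.Plain C' w y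

/-- APL. The same for a cellular automaton; the proof is contained in `AWTH_stmt`
(`Pool.Agent.Helper65.NX.K88.awth`), which shows `Plain` in fact. -/
def APL_stmt : Prop := ∀ (D : ℕ) [NeZero D] (A : CA D) (N : Net), IsCA A N →
    (∀ w y : List Bool, (∃ p r, N.AcceptsAt w y p r) → ∃ t, A.config w y t 0 ∈ A.accept) ∧
    ∀ C : ℝ, ∃ C' : ℝ, ∀ w y : List Bool,
      (∃ t : ℕ, (t : ℝ) ≤ C * ((w.length : ℝ) + 1) ^ (1 + 1 / (D : ℝ)) /
        ((Nat.log 2 w.length : ℝ) + 1) ^ 3 ∧ A.config w y t 0 ∈ A.accept) → N.Plain C' w y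

/-- LOC. A network which works on the word `F w`. Let `len`, `pos`, `lt` be as in `Loc`, and
`κ u = hd (len (hn u)) (ht u) (hp u) (hz u) ++ hr u`, which replaces `n` by `len n` in the header
(`κ (hd n t p z ++ X) = hd (len n) t p z ++ X`). The network `N'` has the same `deg`, `nb' u = nb (κ u)`,
`addr' (true :: u) = addr (true :: κ u)`, `addr' (false :: u) = (min (pos (hn u) j) (hn u)).bits` for
`j = bval (addr (false :: κ u))`, and `next' (sd a ++ (sd b ++ u)) = next (sd a' ++ (sd b ++ κ u))`, where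
`a'` is the word `v[0]?.toList` with `lett v[0]? = lt (hn u) j (lett a[0]?)`, that is `[]`, `[false]`,
`[true]` if this number is `0`, `1`, `2` or otherwise (see `lett`). These functions are computed in
linear space: `addr` is `WLS` by `Pool.Agent.Helper31.DLS.lincomp'` and the hypothesis; then `NLS.map2`,
`WLS.bits`, `WLS.ite`, `LC.comp`. Contents: `N'.val w y p t z = N.val (F w) y p t z` by induction on `t`,
since `N'.inp n p t z i = N.inp (len n) p t z i` and the views differ only in the header; the letter of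
`w` which is read is `w[min (pos n j) n]?`, which is `w[pos n j]?` (both are `none` if `pos n j ≥ n`).
The cones are the same (with `len n` in the place of `n`). Bounds: the same `p`, `r`, `s`, `B`, `V`, and
`a' = a + (log₂ n + 1)`; `n ≤ len n ≤ b (n + 1)`, logarithms are monotone, `l ^ 3 ≤ 8 (n + 1)`;
`C' = (b + 1) |C| + 8`. -/
def LOC_stmt : Prop := ∀ (N : Net) (K : ℕ), (∀ u, (N.addr u).length ≤ K * (u.length + 1)) →
    ∀ F : List Bool → List Bool, Loc F → (∀ w, w.length ≤ (F w).length) → ∃ N' : Net,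
      (∀ w y p r, N'.AcceptsAt w y p r ↔ N.AcceptsAt (F w) y p r) ∧
      ∀ C : ℝ, ∃ C' : ℝ, ∀ w y, N.Plain C (F w) y → N'.Plain C' w y

end Pool.Agent.Helper65.NX
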