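import Pool.Agent.Helper31.DLS.Fn
import Pool.Agent.Helper31.TMS.Lin
import Pool.Agent.Helper31.TMS.Enc
import Pool.Agent.Helper31.TMS.Sel
import Pool.Agent.Helper65.NX.Defs

/-!
# Functions on words in linear space: a toolkit

`NLS f`: the number-valued function `f` on words is computed in linear space (as a function of the
number `num w` of the word). `WLS g`: the same for a word-valued function. `PLS P`: the same for a
property of words. `LinComp f`: the letters of `f w` are computed in linear space; here the length of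
`f w` is not bounded by a linear function.
-/

namespace Pool.Agent.Helper65.NX

open Pool.Agent.Helper65.LinSpace Pool.Agent.Helper78.Mpc Pool.Agent.Helper28.Ram Finset

/-- The number-valued function `f` on words is computed in linear space. -/
def NLS (f : List Bool → ℕ) : Prop := ∃ F : ℕ → ℕ, LS F ∧ ∀ w, F (num w) = f w

/-- The word-valued function `g` on words is computed in linear space, as a function on numbers. -/
def WLS (g : List Bool → List Bool) : Prop := NLS fun w => num (g w)

/-- The property `P` of words is decided in linear space. -/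
def PLS (P : List Bool → Prop) : Prop := ∃ F : ℕ → ℕ, LS F ∧ ∀ w, F (num w) ≠ 0 ↔ P w

/-! ### Numbers -/

theorem NLS.congr {f g : List Bool → ℕ} (h : NLS f) (e : ∀ w, f w = g w) : NLS g := by
  obtain ⟨F, hF, h1⟩ := h
  exact ⟨F, hF, fun w => (h1 w).trans (e w)⟩

theorem NLS.of_ls {F : ℕ → ℕ} (hF : LS F) : NLS fun w => F (num w) := ⟨F, hF, fun _ => rfl⟩

theorem NLS.const (c : ℕ) : NLS fun _ => c := ⟨fun _ => c, LS.const c, fun _ => rfl⟩

theorem NLS.map {f : List Bool → ℕ} {F : ℕ → ℕ} (hF : LS F) (hf : NLS f) :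
    NLS fun w => F (f w) := by
  obtain ⟨G, hG, h1⟩ := hf
  exact ⟨fun x => F (G x), LS.comp (g := F) (f := G) hF hG, fun w => congrArg F (h1 w)⟩

theorem NLS.map2 {f g : List Bool → ℕ} {F : ℕ → ℕ → ℕ} (hF : LS fun z : ℕ × ℕ => F z.1 z.2)
    (hf : NLS f) (hg : NLS g) : NLS fun w => F (f w) (g w) := by
  obtain ⟨G, hG, h1⟩ := hf
  obtain ⟨H, hH, h2⟩ := hg
  exact ⟨fun x => F (G x) (H x), LS.comp (g := fun z : ℕ × ℕ => F z.1 z.2)
    (f := fun x => (G x, H x)) hF (LS.prodMk hG hH), fun w => by beta_reduce; rw [h1, h2]⟩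

theorem NLS.map3 {f g h : List Bool → ℕ} {F : ℕ → ℕ → ℕ → ℕ}
    (hF : LS fun z : ℕ × ℕ × ℕ => F z.1 z.2.1 z.2.2)
    (hf : NLS f) (hg : NLS g) (hh : NLS h) : NLS fun w => F (f w) (g w) (h w) := by
  obtain ⟨G, hG, h1⟩ := hf
  obtain ⟨H, hH, h2⟩ := hg
  obtain ⟨K, hK, h3⟩ := hh
  exact ⟨fun x => F (G x) (H x) (K x), LS.comp (g := fun z : ℕ × ℕ × ℕ => F z.1 z.2.1 z.2.2)
    (f := fun x => (G x, H x, K x)) hF (LS.prodMk hG (LS.prodMk hH hK)),
    fun w => by beta_reduce; rw [h1, h2, h3]⟩

theorem NLS.comp {f : List Bool → ℕ} {g : List Bool → List Bool} (hf : NLS f) (hg : WLS g) :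
    NLS fun w => f (g w) := by
  obtain ⟨F, hF, h1⟩ := hf
  exact (NLS.map hF hg).congr fun w => h1 _

theorem NLS.add {f g : List Bool → ℕ} (hf : NLS f) (hg : NLS g) : NLS fun w => f w + g w :=
  NLS.map2 (F := fun a b => a + b) (by fun_prop) hf hg

theorem NLS.sub {f g : List Bool → ℕ} (hf : NLS f) (hg : NLS g) : NLS fun w => f w - g w :=
  NLS.map2 (F := fun a b => a - b) (by fun_prop) hf hg

theorem NLS.mul {f g : List Bool → ℕ} (hf : NLS f) (hg : NLS g) : NLS fun w => f w * g w :=
  NLS.map2 (F := fun a b => a * b) (by fun_prop) hf hg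

theorem NLS.div {f g : List Bool → ℕ} (hf : NLS f) (hg : NLS g) : NLS fun w => f w / g w :=
  NLS.map2 (F := fun a b => a / b) (by fun_prop) hf hg

theorem NLS.mod {f g : List Bool → ℕ} (hf : NLS f) (hg : NLS g) : NLS fun w => f w % g w :=
  NLS.map2 (F := fun a b => a % b) (by fun_prop) hf hg

/-! ### Properties -/

theorem PLS.congr {P Q : List Bool → Prop} (h : PLS P) (e : ∀ w, P w ↔ Q w) : PLS Q := by
  obtain ⟨F, hF, h1⟩ := h
  exact ⟨F, hF, fun w => (h1 w).trans (e w)⟩

theorem PLS.ne_zero {f : List Bool → ℕ} (hf : NLS f) : PLS fun w => f w ≠ 0 := by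
  obtain ⟨F, hF, h1⟩ := hf
  exact ⟨F, hF, fun w => by rw [h1]⟩

theorem PLS.lt {f g : List Bool → ℕ} (hf : NLS f) (hg : NLS g) : PLS fun w => f w < g w :=
  (PLS.ne_zero (NLS.map2 (F := fun a b => b - a) (by fun_prop) hf hg)).congr fun w => by omega

theorem PLS.eq {f g : List Bool → ℕ} (hf : NLS f) (hg : NLS g) : PLS fun w => f w = g w :=
  (PLS.ne_zero (NLS.map2 (F := fun a b => eq01 a b) (by fun_prop) hf hg)).congr fun w => by
    simp [eq01]

theorem PLS.not {P : List Bool → Prop} (h : PLS P) : PLS fun w => ¬P w := by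
  obtain ⟨F, hF, h1⟩ := h
  refine ⟨fun x => 1 - F x, LS.sub (LS.const 1) hF, fun w => ?_⟩
  beta_reduce
  rw [← h1]
  omega

theorem PLS.and {P Q : List Bool → Prop} (h : PLS P) (h' : PLS Q) : PLS fun w => P w ∧ Q w := by
  obtain ⟨F, hF, h1⟩ := h
  obtain ⟨G, hG, h2⟩ := h'
  refine ⟨fun x => F x * G x, LS.mul hF hG, fun w => ?_⟩
  beta_reduce
  rw [← h1, ← h2, Nat.mul_ne_zero_iff]

theorem PLS.or {P Q : List Bool → Prop} (h : PLS P) (h' : PLS Q) : PLS fun w => P w ∨ Q w := by
  obtain ⟨F, hF, h1⟩ := h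
  obtain ⟨G, hG, h2⟩ := h'
  refine ⟨fun x => F x + G x, LS.add hF hG, fun w => ?_⟩
  beta_reduce
  rw [← h1, ← h2]
  omega

theorem PLS.comp {P : List Bool → Prop} {g : List Bool → List Bool} (h : PLS P) (hg : WLS g) :
    PLS fun w => P (g w) := by
  obtain ⟨F, hF, h1⟩ := h
  exact (PLS.ne_zero (NLS.map hF hg)).congr fun w => h1 _

/-- Equality of words. -/
theorem PLS.weq {f g : List Bool → List Bool} (hf : WLS f) (hg : WLS g) :
    PLS fun w => f w = g w :=
  (PLS.eq hf hg).congr fun _ => Pool.Agent.Helper78.Avg.num_injective.eq_iff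

theorem NLS.ite {P : List Bool → Prop} [DecidablePred P] {f g : List Bool → ℕ} (hP : PLS P)
    (hf : NLS f) (hg : NLS g) : NLS fun w => if P w then f w else g w := by
  obtain ⟨F, hF, h1⟩ := hP
  obtain ⟨G, hG, h2⟩ := hf
  obtain ⟨H, hH, h3⟩ := hg
  refine ⟨fun x => ifz (F x) (H x) (G x), LS.ifz hF hH hG, fun w => ?_⟩
  beta_reduce
  by_cases h : P w
  · rw [if_pos h, ifz_ne ((h1 w).2 h), h2]
  · rw [if_neg h, ifz, if_pos (by_contra fun h4 => h ((h1 w).1 h4)), h3]

/-! ### Words -/

theorem WLS.id : WLS fun w => w := ⟨fun x => x, by fun_prop, fun _ => rfl⟩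

theorem WLS.congr {f g : List Bool → List Bool} (h : WLS f) (e : ∀ w, f w = g w) : WLS g :=
  NLS.congr h fun w => by rw [e]

theorem WLS.const (u : List Bool) : WLS fun _ => u := NLS.const (num u)

theorem WLS.comp {f g : List Bool → List Bool} (hf : WLS f) (hg : WLS g) :
    WLS fun w => f (g w) := NLS.comp (f := fun w => num (f w)) hf hg

theorem WLS.append {f g : List Bool → List Bool} (hf : WLS f) (hg : WLS g) :
    WLS fun w => f w ++ g w :=
  (NLS.map2 (F := catN) (by fun_prop) hf hg).congr fun w => catN_num _ _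

theorem WLS.sdc {f : List Bool → List Bool} (hf : WLS f) : WLS fun w => sd (f w) :=
  (NLS.map (F := sdN) (by fun_prop) hf).congr fun w => sdN_num _

theorem WLS.bits {f : List Bool → ℕ} (hf : NLS f) : WLS fun w => (f w).bits :=
  (NLS.map (F := bitsN) (by fun_prop) hf).congr fun w => bitsN_eq _

theorem WLS.ite {P : List Bool → Prop} [DecidablePred P] {f g : List Bool → List Bool}
    (hP : PLS P) (hf : WLS f) (hg : WLS g) : WLS fun w => if P w then f w else g w :=
  NLS.congr (NLS.ite hP hf hg) fun w => by beta_reduce; split_ifs <;> rfl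

theorem WLS.length {f : List Bool → List Bool} (hf : WLS f) : NLS fun w => (f w).length :=
  (NLS.map (F := fun x => Nat.log 2 x) (by fun_prop) hf).congr fun w => log_num _

theorem WLS.two_pow_length {f : List Bool → List Bool} (hf : WLS f) :
    NLS fun w => 2 ^ (f w).length :=
  (NLS.map (F := fun x => 2 ^ Nat.log 2 x) (by fun_prop) hf).congr fun w => by rw [log_num]

theorem num_eq_bval (w : List Bool) : num w = bval w + 2 ^ w.length := by
  induction w with
  | nil => rfl
  | cons b w ih =>
    show b.toNat + 2 * num w = b.toNat + 2 * bval w + 2 ^ (w.length + 1)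
    rw [ih]
    ring

theorem bval_lt (w : List Bool) : bval w < 2 ^ w.length := by
  induction w with
  | nil => exact Nat.one_pos
  | cons b w ih =>
    show b.toNat + 2 * bval w < 2 ^ (w.length + 1)
    have := toNat_le_one b
    rw [pow_succ]
    omega

theorem WLS.val {f : List Bool → List Bool} (hf : WLS f) : NLS fun w => bval (f w) :=
  (NLS.map (F := fun x => x - 2 ^ Nat.log 2 x) (by fun_prop) hf).congr fun w => by
    rw [log_num, num_eq_bval]
    omega

/-- Letters. -/
theorem WLS.letter {f : List Bool → List Bool} {k : List Bool → ℕ} (hf : WLS f) (hk : NLS k) :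
    NLS fun w => codeO (f w)[k w]? :=
  (NLS.map2 (F := letN) (by unfold letN; fun_prop) hf hk).congr fun w => letN_num _ _

theorem num_drop (k : ℕ) (w : List Bool) :
    num (w.drop k) = if k ≤ w.length then num w / 2 ^ k else 1 := by
  induction k generalizing w with
  | zero => simp
  | succ k ih =>
    cases w with
    | nil => simp [num]
    | cons b w =>
      rw [List.drop_succ_cons, ih]
      have e : num (b :: w) / 2 ^ (k + 1) = num w / 2 ^ k := by
        have := toNat_le_one b
        have h2 : num (b :: w) / 2 = num w := by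
          show (b.toNat + 2 * num w) / 2 = num w
          omega
        rw [pow_succ', ← Nat.div_div_eq_div_mul, h2]
      rw [e]
      simp

theorem WLS.drop {f : List Bool → List Bool} (hf : WLS f) (k : ℕ) : WLS fun w => (f w).drop k := by
  have h1 : NLS fun w => num (f w) / 2 ^ k :=
    NLS.map (F := fun x => x / 2 ^ k) (by fun_prop) hf
  have h2 : PLS fun w => k < (f w).length + 1 := PLS.lt (NLS.const k) ((WLS.length hf).add (NLS.const 1))
  refine NLS.congr (NLS.ite h2 h1 (NLS.const 1)) fun w => ?_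
  rw [num_drop]
  by_cases h : k ≤ (f w).length
  · rw [if_pos h, if_pos (by omega)]
  · rw [if_neg h, if_neg (by omega)]

/-- The word `u` filled up with the letter `0` to the length `L` (if it is shorter). -/
def pad (L : ℕ) (u : List Bool) : List Bool := u ++ List.replicate (L - u.length) false

theorem bval_append (u v : List Bool) : bval (u ++ v) = bval u + 2 ^ u.length * bval v := by
  induction u with
  | nil =>
    show bval v = 0 + 1 * bval v
    ring
  | cons b u ih =>
    show b.toNat + 2 * bval (u ++ v) = b.toNat + 2 * bval u + 2 ^ (u.length + 1) * bval v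
    rw [ih]
    ring

theorem bval_replicate (k : ℕ) : bval (List.replicate k false) = 0 := by
  induction k with
  | zero => rfl
  | succ k ih =>
    show false.toNat + 2 * bval (List.replicate k false) = 0
    rw [ih]
    rfl

theorem bval_pad (L : ℕ) (u : List Bool) : bval (pad L u) = bval u := by
  rw [pad, bval_append, bval_replicate]
  simp

theorem length_pad (L : ℕ) (u : List Bool) : (pad L u).length = max L u.length := by
  rw [pad, List.length_append, List.length_replicate]
  omega

/-- Two words of the same length with the same value are equal. -/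
theorem eq_of_bval {u v : List Bool} (h : u.length = v.length) (h' : bval u = bval v) : u = v := by
  apply Pool.Agent.Helper78.Avg.num_injective
  rw [num_eq_bval, num_eq_bval, h, h']

theorem WLS.padd {f g : List Bool → List Bool} (hf : WLS f) (hg : WLS g) :
    WLS fun w => pad (f w).length (g w) := by
  have h1 : NLS fun w => bval (g w) + 2 ^ (f w).length :=
    (WLS.val hg).add (WLS.two_pow_length hf)
  have h2 : PLS fun w => (g w).length < (f w).length := PLS.lt (WLS.length hg) (WLS.length hf)
  refine NLS.congr (NLS.ite h2 h1 hg) fun w => ?_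
  rw [num_eq_bval (NX.pad _ _), bval_pad, length_pad]
  by_cases h : (g w).length < (f w).length
  · rw [if_pos h, max_eq_left h.le]
  · rw [if_neg h, num_eq_bval, max_eq_right (by omega)]

/-! ### The first part of a code -/

open Pool.Agent.Helper31.SusD (lst)

/-- The number of the word `a`, if `x` is the number of `⟨a⟩ b`. -/
def prN (x : ℕ) : ℕ :=
  lst (x + 1) fun a => lt01 0 (∑ b ∈ range (x + 1), eq01 (catN (sdN a) b) x)

/-- The number of the word `b`, if `x` is the number of `⟨a⟩ b`. -/
def reN (x : ℕ) : ℕ :=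
  lst (x + 1) fun b => lt01 0 (∑ a ∈ range (x + 1), eq01 (catN (sdN a) b) x)

theorem ls_prN : LS prN := by
  unfold prN
  refine Pool.Agent.Helper31.SusD.LS.lst (N := fun x => x + 1)
    (p := fun x a => lt01 0 (∑ b ∈ range (x + 1), eq01 (catN (sdN a) b) x)) (by fun_prop) ?_
    fun a m => ?_
  · refine LS.lt01 (LS.const 0) (LS.sum_le (N := fun z : ℕ × ℕ => z.1 + 1) (B := fun _ => 1)
      (f := fun z b => eq01 (catN (sdN z.2) b) z.1) (by fun_prop) (by fun_prop) (by fun_prop) ?_)
    intro z b _
    unfold eq01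
    split_ifs <;> norm_num
  · unfold lt01
    split_ifs <;> norm_num

theorem ls_reN : LS reN := by
  unfold reN
  refine Pool.Agent.Helper31.SusD.LS.lst (N := fun x => x + 1)
    (p := fun x b => lt01 0 (∑ a ∈ range (x + 1), eq01 (catN (sdN a) b) x)) (by fun_prop) ?_
    fun a m => ?_
  · refine LS.lt01 (LS.const 0) (LS.sum_le (N := fun z : ℕ × ℕ => z.1 + 1) (B := fun _ => 1)
      (f := fun z a => eq01 (catN (sdN a) z.2) z.1) (by fun_prop) (by fun_prop) (by fun_prop) ?_)
    intro z b _
    unfold eq01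
    split_ifs <;> norm_num
  · unfold lt01
    split_ifs <;> norm_num

theorem cat_unique {a b : ℕ} {u v : List Bool} (h : catN (sdN a) b = num (sd u ++ v)) :
    a = num u ∧ b = num v := by
  have h0 := num_pos (sd u ++ v)
  have h1 := catN_eq_zero (a := sdN a) (b := b) (by omega)
  have h2 : a ≠ 0 := by
    rintro rfl
    exact h1.1 (by unfold sdN; exact ifz_zero _ _)
  obtain ⟨u', rfl⟩ := exists_num (Nat.pos_of_ne_zero h2)
  obtain ⟨v', rfl⟩ := exists_num (Nat.pos_of_ne_zero h1.2)
  rw [sdN_num, catN_num] at h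
  obtain ⟨h3, h4⟩ := Pool.Agent.Helper31.TMS.sd_inj (Pool.Agent.Helper78.Avg.num_injective h)
  rw [h3, h4]
  exact ⟨rfl, rfl⟩

theorem prN_num (u v : List Bool) : prN (num (sd u ++ v)) = num u := by
  have hle : num u < num (sd u ++ v) + 1 :=
    Nat.lt_succ_of_le ((Pool.Agent.Helper31.TMS.num_le_sd u).trans
      (Pool.Agent.Helper31.TMS.num_mono_left _ _))
  have hlv : num v < num (sd u ++ v) + 1 :=
    Nat.lt_succ_of_le (Pool.Agent.Helper31.TMS.num_le_append _ _)
  have h1 : lt01 0 (∑ b ∈ range (num (sd u ++ v) + 1),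
      eq01 (catN (sdN (num u)) b) (num (sd u ++ v))) ≠ 0 := by
    have h2 : 0 < ∑ b ∈ range (num (sd u ++ v) + 1),
        eq01 (catN (sdN (num u)) b) (num (sd u ++ v)) := by
      refine Finset.sum_pos' (fun _ _ => Nat.zero_le _) ⟨num v, mem_range.2 hlv, ?_⟩
      rw [sdN_num, catN_num]
      simp [eq01]
    simp [lt01, h2]
  have h2 := (Pool.Agent.Helper31.SusD.lst_spec (N := num (sd u ++ v) + 1)
    (p := fun a => lt01 0 (∑ b ∈ range (num (sd u ++ v) + 1),
      eq01 (catN (sdN a) b) (num (sd u ++ v)))) hle h1).1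
  have h3 : lt01 0 (∑ b ∈ range (num (sd u ++ v) + 1),
      eq01 (catN (sdN (prN (num (sd u ++ v)))) b) (num (sd u ++ v))) ≠ 0 := h2
  have h4 : 0 < ∑ b ∈ range (num (sd u ++ v) + 1),
      eq01 (catN (sdN (prN (num (sd u ++ v)))) b) (num (sd u ++ v)) := by
    by_contra hcon
    exact h3 (by unfold lt01; rw [if_neg hcon])
  obtain ⟨b, _, hb⟩ := exists_ne_zero_of_sum_ne_zero h4.ne'
  refine (cat_unique (b := b) (u := u) (v := v) ?_).1
  by_contra hcon
  exact hb (by unfold eq01; rw [if_neg hcon])

theorem reN_num (u v : List Bool) : reN (num (sd u ++ v)) = num v := by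
  have hle : num u < num (sd u ++ v) + 1 :=
    Nat.lt_succ_of_le ((Pool.Agent.Helper31.TMS.num_le_sd u).trans
      (Pool.Agent.Helper31.TMS.num_mono_left _ _))
  have hlv : num v < num (sd u ++ v) + 1 :=
    Nat.lt_succ_of_le (Pool.Agent.Helper31.TMS.num_le_append _ _)
  have h1 : lt01 0 (∑ a ∈ range (num (sd u ++ v) + 1),
      eq01 (catN (sdN a) (num v)) (num (sd u ++ v))) ≠ 0 := by
    have h2 : 0 < ∑ a ∈ range (num (sd u ++ v) + 1),
        eq01 (catN (sdN a) (num v)) (num (sd u ++ v)) := by
      refine Finset.sum_pos' (fun _ _ => Nat.zero_le _) ⟨num u, mem_range.2 hle, ?_⟩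
      rw [sdN_num, catN_num]
      simp [eq01]
    simp [lt01, h2]
  have h2 := (Pool.Agent.Helper31.SusD.lst_spec (N := num (sd u ++ v) + 1)
    (p := fun b => lt01 0 (∑ a ∈ range (num (sd u ++ v) + 1),
      eq01 (catN (sdN a) b) (num (sd u ++ v)))) hlv h1).1
  have h3 : lt01 0 (∑ a ∈ range (num (sd u ++ v) + 1),
      eq01 (catN (sdN a) (reN (num (sd u ++ v)))) (num (sd u ++ v))) ≠ 0 := h2
  have h4 : 0 < ∑ a ∈ range (num (sd u ++ v) + 1),
      eq01 (catN (sdN a) (reN (num (sd u ++ v)))) (num (sd u ++ v)) := by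
    by_contra hcon
    exact h3 (by unfold lt01; rw [if_neg hcon])
  obtain ⟨a, _, ha⟩ := exists_ne_zero_of_sum_ne_zero h4.ne'
  refine (cat_unique (a := a) (u := u) (v := v) ?_).2
  by_contra hcon
  exact ha (by unfold eq01; rw [if_neg hcon])

/-- The first part `a` of a word `⟨a⟩ b`. -/
noncomputable def pr (w : List Bool) : List Bool :=
  if h : 0 < prN (num w) then Classical.choose (exists_num h) else []

/-- The rest `b` of a word `⟨a⟩ b`. -/
noncomputable def re (w : List Bool) : List Bool :=
  if h : 0 < reN (num w) then Classical.choose (exists_num h) else []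

theorem WLS.pr {f : List Bool → List Bool} (hf : WLS f) : WLS fun w => pr (f w) := by
  refine NLS.congr (NLS.map (F := fun x => ifz (prN x) 1 (prN x))
    (LS.ifz ls_prN (LS.const 1) ls_prN) hf) fun w => ?_
  beta_reduce
  unfold NX.pr
  by_cases h : 0 < prN (num (f w))
  · rw [dif_pos h, ifz_ne h.ne']
    exact (Classical.choose_spec (exists_num h)).symm
  · rw [dif_neg h, ifz, if_pos (by omega)]
    rfl

theorem WLS.re {f : List Bool → List Bool} (hf : WLS f) : WLS fun w => re (f w) := by
  refine NLS.congr (NLS.map (F := fun x => ifz (reN x) 1 (reN x))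
    (LS.ifz ls_reN (LS.const 1) ls_reN) hf) fun w => ?_
  beta_reduce
  unfold NX.re
  by_cases h : 0 < reN (num (f w))
  · rw [dif_pos h, ifz_ne h.ne']
    exact (Classical.choose_spec (exists_num h)).symm
  · rw [dif_neg h, ifz, if_pos (by omega)]
    rfl

theorem pr_sd (u v : List Bool) : pr (sd u ++ v) = u := by
  apply Pool.Agent.Helper78.Avg.num_injective
  have h : 0 < prN (num (sd u ++ v)) := by
    rw [prN_num]
    exact num_pos u
  unfold pr
  rw [dif_pos h, ← prN_num u v]
  exact Classical.choose_spec (exists_num h)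

theorem re_sd (u v : List Bool) : re (sd u ++ v) = v := by
  apply Pool.Agent.Helper78.Avg.num_injective
  have h : 0 < reN (num (sd u ++ v)) := by
    rw [reN_num]
    exact num_pos v
  unfold re
  rw [dif_pos h, ← reN_num u v]
  exact Classical.choose_spec (exists_num h)

theorem pr_sd' (u : List Bool) : pr (sd u) = u := by
  have := pr_sd u []
  rwa [List.append_nil] at this

theorem re_sd' (u : List Bool) : re (sd u) = [] := by
  have := re_sd u []
  rwa [List.append_nil] at this

/-! ### Functions whose letters are computed in linear space -/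

theorem LC.of_wls {f : List Bool → List Bool} (hf : WLS f) : LinComp f := by
  obtain ⟨F, hF, h⟩ := hf
  exact Pool.Agent.Helper31.TMS.linComp_of_ls hF h

theorem LC.congr {f g : List Bool → List Bool} (h : LinComp f) (e : ∀ w, f w = g w) :
    LinComp g := by
  have : f = g := funext e
  rwa [← this]

/-- The letters of `f w` are computed from `w` and `2 ^ i`. -/
theorem lc_letter {f : List Bool → List Bool} (hf : LinComp f) : ∃ H : ℕ → ℕ → ℕ,
    (LS fun z : ℕ × ℕ => H z.1 z.2) ∧ ∀ w i, H (num w) (2 ^ i) = codeO (f w)[i]? := by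
  obtain ⟨F, hF, h⟩ := Pool.Agent.Helper31.DLS.lincomp_letter hf
  refine ⟨fun x z => F (queryN (2 * z) (Nat.log 2 z) x), ?_, fun w i => ?_⟩
  · exact LS.comp (g := F) (f := fun z : ℕ × ℕ => queryN (2 * z.2) (Nat.log 2 z.2) z.1) hF
      (by fun_prop)
  · beta_reduce
    rw [Nat.log_pow (by norm_num), queryN_num (by rw [pow_succ]; omega), h]

/-- The test for `u = 1^i 0 w` with `(f w)[i]? = some b`. -/
def tst2 (H : ℕ → ℕ → ℕ) (b : Bool) (x i : ℕ) : ℕ :=
  eq01 x (queryN (2 * x) i (x / capPow 2 (i + 1) (2 * x))) *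
    (lt01 0 (x / capPow 2 (i + 1) (2 * x)) *
      eq01 (H (x / capPow 2 (i + 1) (2 * x)) (capPow 2 i (2 * x))) (1 + b.toNat))

theorem codeO_eq (a : Option Bool) (b : Bool) : codeO a = 1 + b.toNat ↔ a = some b := by
  rcases a with _ | a
  · cases b <;> simp [codeO]
  · cases a <;> cases b <;> simp [codeO]

theorem lc_of_letter {f : List Bool → List Bool} {H : ℕ → ℕ → ℕ}
    (hH : LS fun z : ℕ × ℕ => H z.1 z.2) (h : ∀ w i, H (num w) (2 ^ i) = codeO (f w)[i]?) :
    LinComp f := by
  intro b
  refine LS.dlinspace (F := fun x => ∑ i ∈ range (Nat.log 2 x + 1), tst2 H b x i) ?_ _ ?_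
  · refine LS.sum_le (N := fun x : ℕ => Nat.log 2 x + 1) (B := fun _ => 1)
      (f := fun x i => tst2 H b x i) ?_ (by fun_prop) (LS.const 1) fun x i _ => ?_
    · have hq : LS (fun z : ℕ × ℕ => z.1 / capPow 2 (z.2 + 1) (2 * z.1)) := by fun_prop
      have hF' : LS (fun z : ℕ × ℕ =>
          H (z.1 / capPow 2 (z.2 + 1) (2 * z.1)) (capPow 2 z.2 (2 * z.1))) :=
        LS.comp (g := fun z : ℕ × ℕ => H z.1 z.2)
          (f := fun z : ℕ × ℕ => (z.1 / capPow 2 (z.2 + 1) (2 * z.1), capPow 2 z.2 (2 * z.1))) hH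
          (LS.prodMk hq (by fun_prop))
      unfold tst2
      fun_prop
    · unfold tst2 eq01 lt01
      split_ifs <;> norm_num
  · intro u
    constructor
    · rintro ⟨i, w, rfl, hi⟩ hsum
      rw [sum_eq_zero_iff] at hsum
      have hlog := log_num (List.replicate i true ++ false :: w)
      have hlen : (List.replicate i true ++ false :: w).length = i + (w.length + 1) := by simp
      have hi' := hsum i (mem_range.2 (by rw [hlog, hlen]; omega))
      set x := num (List.replicate i true ++ false :: w) with hx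
      have hB : 2 ^ (i + 1) ≤ 2 * x := by
        have h1 : 2 ^ Nat.log 2 x ≤ x := Nat.pow_log_le_self 2 (num_pos _).ne'
        have h2 : 2 ^ (i + 1) ≤ 2 ^ Nat.log 2 x :=
          Nat.pow_le_pow_right (by norm_num) (by rw [hlog, hlen]; omega)
        omega
      have hcap : capPow 2 (i + 1) (2 * x) = 2 ^ (i + 1) := by
        rw [capPow, min_eq_left (by omega)]
      have hcap' : capPow 2 i (2 * x) = 2 ^ i := by
        have h5 : 2 ^ i < 2 ^ (i + 1) := Nat.pow_lt_pow_right (by norm_num) (by omega)
        rw [capPow, min_eq_left (by omega)]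
      have hq : queryN (2 * x) i (num w) = x := queryN_num hB w
      have hdiv : x / 2 ^ (i + 1) = num w := by
        have e : x = 2 ^ (i + 1) * num w + (capPow 2 i (2 * x) - 1) := by
          conv_lhs => rw [← hq]
          unfold queryN
          rw [hcap]
        have h3 : capPow 2 i (2 * x) - 1 < 2 ^ (i + 1) := by
          have h4 : capPow 2 i (2 * x) ≤ 2 ^ i := min_le_left _ _
          have h5 : 2 ^ i < 2 ^ (i + 1) := Nat.pow_lt_pow_right (by norm_num) (by omega)
          omega
        conv_lhs => rw [e]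
        rw [Nat.mul_add_div (by positivity), Nat.div_eq_of_lt h3, add_zero]
      have hx1 : tst2 H b x i = 1 := by
        unfold tst2
        rw [hcap, hcap', hdiv, hq, h, (codeO_eq _ _).2 hi]
        have := num_pos w
        simp [eq01, lt01, this]
      omega
    · intro hsum
      obtain ⟨i, _, hi⟩ := exists_ne_zero_of_sum_ne_zero hsum
      set x := num u with hx
      unfold tst2 at hi
      have h1 := left_ne_zero_of_mul hi
      have h2 := left_ne_zero_of_mul (right_ne_zero_of_mul hi)
      have h3 := right_ne_zero_of_mul (right_ne_zero_of_mul hi)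
      set y := x / capPow 2 (i + 1) (2 * x) with hy
      have e1 : x = queryN (2 * x) i y := by
        by_contra hcon
        exact h1 (by unfold eq01; rw [if_neg hcon])
      have e2 : 0 < y := by
        by_contra hcon
        exact h2 (by unfold lt01; rw [if_neg hcon])
      have e3 : H y (capPow 2 i (2 * x)) = 1 + b.toNat := by
        by_contra hcon
        exact h3 (by unfold eq01; rw [if_neg hcon])
      obtain ⟨w, hw⟩ := exists_num e2
      have hxp : 0 < x := num_pos u
      have hB : 2 ^ (i + 1) ≤ 2 * x := by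
        by_contra hcon
        have h4 : capPow 2 (i + 1) (2 * x) = 2 * x + 1 := by
          rw [capPow, min_eq_right (by omega)]
        have h5 : y = 0 := by
          rw [hy, h4]
          exact Nat.div_eq_of_lt (by omega)
        omega
      have hcap' : capPow 2 i (2 * x) = 2 ^ i := by
        have h5 : 2 ^ i < 2 ^ (i + 1) := Nat.pow_lt_pow_right (by norm_num) (by omega)
        rw [capPow, min_eq_left (by omega)]
      refine ⟨i, w, ?_, ?_⟩
      · apply Pool.Agent.Helper78.Avg.num_injective
        rw [← queryN_num hB w, hw, ← e1]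
      · rw [← hw, hcap', h] at e3
        exact (codeO_eq _ _).1 e3

theorem LC.comp {f g : List Bool → List Bool} (hf : LinComp f) (hg : WLS g) :
    LinComp fun w => f (g w) := by
  obtain ⟨H, hH, h⟩ := lc_letter hf
  obtain ⟨G, hG, h'⟩ := hg
  refine lc_of_letter (H := fun x z => H (G x) z) ?_ fun w i => by rw [h', h]
  have h1 : LS fun z : ℕ × ℕ => G z.1 := LS.comp (g := G) hG (by fun_prop)
  exact LS.comp (g := fun z : ℕ × ℕ => H z.1 z.2) (f := fun z : ℕ × ℕ => (G z.1, z.2)) hH
    (LS.prodMk h1 (by fun_prop))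

theorem LC.ite {P : List Bool → Prop} [DecidablePred P] {f g : List Bool → List Bool}
    (hP : PLS P) (hf : LinComp f) (hg : LinComp g) :
    LinComp fun w => if P w then f w else g w := by
  obtain ⟨F, hF, h0⟩ := hP
  obtain ⟨H, hH, h1⟩ := lc_letter hf
  obtain ⟨K, hK, h2⟩ := lc_letter hg
  have h3 : LS fun z : ℕ × ℕ => F z.1 := LS.comp (g := F) hF (by fun_prop)
  refine lc_of_letter (H := fun x z => ifz (F x) (K x z) (H x z)) (LS.ifz h3 hK hH) fun w i => ?_
  by_cases h : P w
  · rw [if_pos h, ifz_ne ((h0 w).2 h), h1]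
  · rw [if_neg h, ifz, if_pos (by_contra fun h4 => h ((h0 w).1 h4)), h2]

/-- A letter of a value. -/
theorem LC.letter {f : List Bool → List Bool} (hf : LinComp f) (k : ℕ) :
    NLS fun w => codeO (f w)[k]? := by
  obtain ⟨H, hH, h⟩ := lc_letter hf
  exact ⟨fun x => H x (2 ^ k), LS.comp (g := fun z : ℕ × ℕ => H z.1 z.2)
    (f := fun x : ℕ => (x, 2 ^ k)) hH (by fun_prop), fun w => h w k⟩

theorem LC.letter_eq {f : List Bool → List Bool} (hf : LinComp f) (k : ℕ) (a : Option Bool) :
    PLS fun w => (f w)[k]? = a := by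
  refine (PLS.eq (LC.letter hf k) (NLS.const (codeO a))).congr fun w => ?_
  rcases (f w)[k]? with _ | b <;> rcases a with _ | c
  · simp
  · cases c <;> simp [codeO]
  · cases b <;> simp [codeO]
  · cases b <;> cases c <;> simp [codeO]

theorem LC.drop {f : List Bool → List Bool} (hf : LinComp f) (k : ℕ) :
    LinComp fun w => (f w).drop k := by
  obtain ⟨H, hH, h⟩ := lc_letter hf
  refine lc_of_letter (H := fun x z => H x (z * 2 ^ k)) ?_ fun w i => ?_
  · exact LS.comp (g := fun z : ℕ × ℕ => H z.1 z.2) (f := fun z : ℕ × ℕ => (z.1, z.2 * 2 ^ k)) hH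
      (by fun_prop)
  · rw [← pow_add, h, List.getElem?_drop, add_comm i k]

/-- Concatenation with a word which is computed in linear space. -/
theorem LC.append {f g : List Bool → List Bool} (hf : WLS f) (hg : LinComp g) :
    LinComp fun w => f w ++ g w := by
  obtain ⟨F, hF, h1⟩ := hf
  obtain ⟨H, hH, h2⟩ := lc_letter hg
  have h3 : LS fun z : ℕ × ℕ => F z.1 := LS.comp (g := F) hF (by fun_prop)
  have h4 : LS fun z : ℕ × ℕ => H z.1 (z.2 / 2 ^ Nat.log 2 (F z.1)) :=
    LS.comp (g := fun z : ℕ × ℕ => H z.1 z.2)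
      (f := fun z : ℕ × ℕ => (z.1, z.2 / 2 ^ Nat.log 2 (F z.1))) hH (by fun_prop)
  refine lc_of_letter (H := fun x z => ifz (lt01 (Nat.log 2 z) (Nat.log 2 (F x)))
    (H x (z / 2 ^ Nat.log 2 (F x))) (letN (F x) (Nat.log 2 z))) ?_ fun w i => ?_
  · unfold letN
    fun_prop
  · rw [Nat.log_pow (by norm_num), h1, log_num]
    by_cases h : i < (f w).length
    · rw [lt01, if_pos h, ifz_ne one_ne_zero, letN_num, List.getElem?_append_left h]
    · rw [lt01, if_neg h, ifz_zero, Nat.pow_div (by omega) (by norm_num), h2,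
        List.getElem?_append_right (by omega)]

theorem sd_even (u : List Bool) (j : ℕ) : (sd u)[2 * j]? =
    if j < u.length then some true else if j = u.length then some false else none := by
  induction u generalizing j with
  | nil =>
    rcases j with _ | j
    · rfl
    · simp [sd]
  | cons b u ih =>
    rcases j with _ | j
    · simp [sd]
    · show (true :: b :: sd u)[2 * j + 1 + 1]? = _
      rw [List.getElem?_cons_succ, List.getElem?_cons_succ, ih]
      simp

theorem sd_odd (u : List Bool) (j : ℕ) : (sd u)[2 * j + 1]? = u[j]? := by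
  induction u generalizing j with
  | nil => simp [sd]
  | cons b u ih =>
    rcases j with _ | j
    · simp [sd]
    · show (true :: b :: sd u)[2 * j + 1 + 1 + 1]? = _
      rw [List.getElem?_cons_succ, List.getElem?_cons_succ, ih]
      simp

theorem LC.sdc {f : List Bool → List Bool} (hf : LinComp f) : LinComp fun w => sd (f w) := by
  obtain ⟨H, hH, h⟩ := lc_letter hf
  have hp : LS fun z : ℕ × ℕ => 2 ^ (Nat.log 2 z.2 / 2) := by
    refine LS.pow_of_le (f := fun _ => 2) (g := fun z : ℕ × ℕ => Nat.log 2 z.2 / 2)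
      (C := fun z : ℕ × ℕ => z.2 + 1) (by fun_prop) (by fun_prop) (by fun_prop) fun z => ?_
    rcases Nat.eq_zero_or_pos z.2 with h1 | h1
    · rw [h1]
      simp
    · exact (Nat.pow_le_pow_right (by norm_num) (Nat.div_le_self _ _)).trans
        ((Nat.pow_log_le_self 2 h1.ne').trans (Nat.le_succ _))
  have h1 : LS fun z : ℕ × ℕ => H z.1 (2 ^ (Nat.log 2 z.2 / 2)) :=
    LS.comp (g := fun z : ℕ × ℕ => H z.1 z.2)
      (f := fun z : ℕ × ℕ => (z.1, 2 ^ (Nat.log 2 z.2 / 2))) hH (LS.prodMk (by fun_prop) hp)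
  have h2 : LS fun z : ℕ × ℕ => H z.1 (2 ^ (Nat.log 2 z.2 / 2) / 2) :=
    LS.comp (g := fun z : ℕ × ℕ => H z.1 z.2)
      (f := fun z : ℕ × ℕ => (z.1, 2 ^ (Nat.log 2 z.2 / 2) / 2)) hH
      (LS.prodMk (by fun_prop) (by fun_prop))
  refine lc_of_letter (H := fun x z => ifz (Nat.log 2 z % 2)
    (ifz (H x (2 ^ (Nat.log 2 z / 2))) (ifz (Nat.log 2 z / 2) 1
      (lt01 0 (H x (2 ^ (Nat.log 2 z / 2) / 2)))) 2)
    (H x (2 ^ (Nat.log 2 z / 2)))) (by fun_prop) fun w i => ?_
  rw [Nat.log_pow (by norm_num)]
  have hc : ∀ (u : List Bool) (j : ℕ), codeO u[j]? = 0 ↔ u.length ≤ j := by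
    intro u j
    rw [← List.getElem?_eq_none_iff]
    rcases u[j]? with _ | b
    · simp [codeO]
    · simp [codeO]
  rcases Nat.even_or_odd' i with ⟨j, rfl | rfl⟩
  · rw [show 2 * j % 2 = 0 by omega, ifz_zero, show 2 * j / 2 = j by omega, h, sd_even]
    by_cases h3 : j < (f w).length
    · have h4 : codeO (f w)[j]? ≠ 0 := fun h5 => by
        have := (hc _ _).1 h5
        omega
      rw [if_pos h3, ifz_ne h4]
      rfl
    · rw [(hc _ _).2 (by omega), ifz_zero, if_neg h3]
      rcases j with _ | j
      · rw [ifz_zero, if_pos (by omega)]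
        rfl
      · rw [ifz_ne (Nat.succ_ne_zero _), show 2 ^ (j + 1) / 2 = 2 ^ j by rw [pow_succ]; omega, h]
        by_cases h5 : j + 1 = (f w).length
        · have h6 : codeO (f w)[j]? ≠ 0 := fun h7 => by
            have := (hc _ _).1 h7
            omega
          rw [if_pos h5, lt01, if_pos (Nat.pos_of_ne_zero h6)]
          rfl
        · rw [if_neg h5, (hc _ _).2 (by omega)]
          rfl
  · rw [show (2 * j + 1) % 2 = 1 by omega, ifz_ne one_ne_zero,
      show (2 * j + 1) / 2 = j by omega, h, sd_odd]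

end Pool.Agent.Helper65.NX
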